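import Mathlib
import Pool.Agent.Lib_helper48.WiefDefs
import Pool.Agent.Lib_helper48.WiefCyc

set_option autoImplicit false

namespace Pool.Agent.Results.MP_4547ec_nt.PuccioniAllBases

open Filter Pool.Agent.Wief

/-- For every `43`-smooth `a ≥ 2` (in particular every prime `a ≤ 43`), the sets `𝒫₄₃` and
`ℳ_a = {ℓ prime : a^{ℓ-1} ≡ 1 (mod ℓ³)}` together have at least `c log x / log log x` elements up
to `x` (at least `c log x` if `a` is even and not divisible by `8`); so if `𝒫₄₃` is finite then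
`ℳ_a` is infinite. -/
theorem result (a : ℕ) (ha : 2 ≤ a) (has : a ∈ Nat.smoothNumbers 44) :
    (∃ c : ℝ, 0 < c ∧ ∀ᶠ x : ℕ in atTop, c * (Real.log x / Real.log (Real.log x)) ≤
      (P43 ∩ Set.Iic x).ncard + (M a ∩ Set.Iic x).ncard) ∧
    (2 ∣ a → ¬ 8 ∣ a → ∃ c : ℝ, 0 < c ∧ ∀ᶠ x : ℕ in atTop, c * Real.log x ≤
      (P43 ∩ Set.Iic x).ncard + (M a ∩ Set.Iic x).ncard) ∧
    (P43.Finite → (M a).Infinite) := by
  refine ⟨primes_bound ha has, even_bound ha has, ?_⟩
  intro hfin hM
  obtain ⟨c, hc, h⟩ := primes_bound ha has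
  have hL : Tendsto (fun x : ℕ => Real.log (x : ℝ)) atTop atTop :=
    Real.tendsto_log_atTop.comp tendsto_natCast_atTop_atTop
  have h1 : Tendsto (fun y : ℝ => y / Real.log y) atTop atTop := by
    have h2 : Tendsto (fun y : ℝ => Real.exp (Real.log y) / Real.log y) atTop atTop := by
      have h3 := (Real.tendsto_exp_div_pow_atTop 1).comp Real.tendsto_log_atTop
      refine h3.congr (fun y => ?_)
      simp
    refine h2.congr' ?_
    filter_upwards [eventually_gt_atTop 0] with y hy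
    rw [Real.exp_log hy]
  have h4 := (h1.comp hL).eventually_gt_atTop (((P43.ncard : ℝ) + (M a).ncard) / c)
  obtain ⟨x, hx1, hx2⟩ := (h.and h4).exists
  have h5 : (((P43 ∩ Set.Iic x).ncard : ℕ) : ℝ) ≤ P43.ncard := by
    exact_mod_cast Set.ncard_le_ncard Set.inter_subset_left hfin
  have h6 : (((M a ∩ Set.Iic x).ncard : ℕ) : ℝ) ≤ (M a).ncard := by
    exact_mod_cast Set.ncard_le_ncard Set.inter_subset_left hM
  simp only [Function.comp] at hx2
  rw [div_lt_iff₀ hc] at hx2
  nlinarith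

end Pool.Agent.Results.MP_4547ec_nt.PuccioniAllBases
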